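import Pool.Agent.H21.BS.TB

/-!
# The correlations bound all Fourier coefficients (VDC)
-/

set_option autoImplicit false

open Finset Pool.Agent.H6.N4D Pool.Agent.H21.BS

namespace Pool.Agent.H13.BES

theorem normSq_sum (G : ℕ → ℂ) (s : ℕ) :
    Complex.normSq (∑ y ∈ range s, G y) =
      2 * ∑ h ∈ range s, (∑ y ∈ range (s - h), G y * starRingEnd ℂ (G (y + h))).re -
        (∑ y ∈ range s, G y * starRingEnd ℂ (G y)).re := by
  induction s with
  | zero => simp
  | succ s ih =>
    have h1 : ∀ h ∈ range (s + 1),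
        (∑ y ∈ range (s + 1 - h), G y * starRingEnd ℂ (G (y + h))).re =
        (∑ y ∈ range (s - h), G y * starRingEnd ℂ (G (y + h))).re +
          (G (s - h) * starRingEnd ℂ (G s)).re := by
      intro h hh
      have hh' := mem_range.1 hh
      rw [show s + 1 - h = (s - h) + 1 by omega, sum_range_succ, Complex.add_re,
        show s - h + h = s by omega]
    have h2 : ∑ h ∈ range (s + 1), (G (s - h) * starRingEnd ℂ (G s)).re =
        ((∑ y ∈ range (s + 1), G y) * starRingEnd ℂ (G s)).re := by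
      rw [sum_mul, Complex.re_sum]
      have h3 := sum_range_reflect (fun y => (G y * starRingEnd ℂ (G s)).re) (s + 1)
      rw [← h3]
      refine sum_congr rfl fun y hy => ?_
      congr 3
    rw [sum_congr rfl h1, sum_add_distrib, h2, sum_range_succ (fun h =>
      (∑ y ∈ range (s - h), G y * starRingEnd ℂ (G (y + h))).re), Nat.sub_self, range_zero,
      sum_empty, Complex.zero_re, add_zero, sum_range_succ, Complex.normSq_add, ih, add_mul,
      Complex.add_re, sum_range_succ (fun y => G y * starRingEnd ℂ (G y)), Complex.add_re,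
      Complex.mul_conj, Complex.ofReal_re]
    ring

theorem conj_ee (x : ℝ) : starRingEnd ℂ (ee x) = ee (-x) := by
  unfold ee
  rw [← Complex.exp_conj, map_mul, Complex.conj_ofReal, Complex.conj_I]
  congr 1
  push_cast
  ring

theorem pf_VDC : T_VDC := by
  intro s F θ hs
  have hs0 : (0 : ℝ) < s := by exact_mod_cast hs
  set G : ℕ → ℂ := fun y => F y * ee (-(θ * y)) with hG
  have hZ : ∀ h : ℕ, ‖∑ y ∈ range (s - h), G y * starRingEnd ℂ (G (y + h))‖ =
      ‖∑ y ∈ range (s - h), F y * starRingEnd ℂ (F (y + h))‖ := by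
    intro h
    have h1 : ∑ y ∈ range (s - h), G y * starRingEnd ℂ (G (y + h)) =
        ee (θ * h) * ∑ y ∈ range (s - h), F y * starRingEnd ℂ (F (y + h)) := by
      rw [mul_sum]
      refine sum_congr rfl fun y _ => ?_
      simp only [hG]
      rw [map_mul, conj_ee]
      have h2 : ee (θ * h) = ee (-(θ * y)) * ee (- -(θ * ((y + h : ℕ) : ℝ))) := by
        rw [← ee_add]
        congr 1
        push_cast
        ring
      rw [h2]
      ring
    rw [h1, norm_mul, norm_ee, one_mul]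
  set R : ℕ → ℝ := fun h => ‖∑ y ∈ range (s - h), F y * starRingEnd ℂ (F (y + h))‖ with hR
  have h2 : ‖∑ y ∈ range s, G y‖ ^ 2 ≤ 2 * ∑ h ∈ range s, R h := by
    rw [← Complex.normSq_eq_norm_sq, normSq_sum]
    have h3 : 0 ≤ (∑ y ∈ range s, G y * starRingEnd ℂ (G y)).re := by
      rw [Complex.re_sum]
      refine sum_nonneg fun y _ => ?_
      rw [Complex.mul_conj, Complex.ofReal_re]
      exact Complex.normSq_nonneg _
    have h4 : ∑ h ∈ range s, (∑ y ∈ range (s - h), G y * starRingEnd ℂ (G (y + h))).re ≤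
        ∑ h ∈ range s, R h :=
      sum_le_sum fun h _ => (Complex.re_le_norm _).trans_eq (hZ h)
    linarith
  have h5 : (∑ h ∈ range s, R h) ^ 2 ≤ s * ∑ h ∈ range s, R h ^ 2 := by
    have := sq_sum_le_card_mul_sum_sq (s := range s) (f := R)
    rwa [card_range] at this
  have h6 : ‖∑ y ∈ range s, G y‖ ^ 4 ≤ 4 * (s * ∑ h ∈ range s, R h ^ 2) := by
    have h7 : (‖∑ y ∈ range s, G y‖ ^ 2) ^ 2 ≤ (2 * ∑ h ∈ range s, R h) ^ 2 :=
      pow_le_pow_left₀ (by positivity) h2 2
    calc ‖∑ y ∈ range s, G y‖ ^ 4 = (‖∑ y ∈ range s, G y‖ ^ 2) ^ 2 := by ring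
      _ ≤ (2 * ∑ h ∈ range s, R h) ^ 2 := h7
      _ = 4 * (∑ h ∈ range s, R h) ^ 2 := by ring
      _ ≤ _ := by linarith
  have h8 : ∑ h ∈ range s, ‖(∑ y ∈ range (s - h), F y * starRingEnd ℂ (F (y + h))) / (s : ℂ)‖ ^ 2 =
      (∑ h ∈ range s, R h ^ 2) / (s : ℝ) ^ 2 := by
    rw [sum_div]
    refine sum_congr rfl fun h _ => ?_
    rw [norm_div, Complex.norm_natCast, div_pow]
  rw [norm_div, Complex.norm_natCast, div_pow, h8]
  rw [div_le_iff₀ (by positivity)]
  calc ‖∑ y ∈ range s, F y * ee (-(θ * y))‖ ^ 4 ≤ 4 * (s * ∑ h ∈ range s, R h ^ 2) := h6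
    _ = 4 / (s : ℝ) * ((∑ h ∈ range s, R h ^ 2) / (s : ℝ) ^ 2) * (s : ℝ) ^ 4 := by
      field_simp

end Pool.Agent.H13.BES
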